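import Pool.Agent.helper358_md.Def

/-!
# Comparing separated sets for `ρ_∞` and `ρ_1`
-/

namespace Pool.Agent.helper358_md

open Finset
open scoped ENNReal

/-- The number of functions `Fin d → Option C` with at most `k` values different from `none`. -/
lemma card_few (d : ℕ) (C : Type*) [Fintype C] [DecidableEq C] [Nonempty C] (k : ℕ) :
    ((univ : Finset (Fin d → Option C)).filter
      (fun g => (univ.filter fun j => g j ≠ none).card ≤ k)).card
      ≤ 2 ^ d * (Fintype.card C) ^ k := by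
  classical
  have hN : (0 : ℝ) < Fintype.card C := by exact_mod_cast Fintype.card_pos
  have hN1 : (1 : ℝ) ≤ Fintype.card C := by exact_mod_cast Fintype.card_pos
  set N : ℝ := ((Fintype.card C : ℕ) : ℝ) with hNdef
  let w : Option C → ℝ := fun o => if o ≠ none then 1 / N else 1
  have hw0 : ∀ o, 0 ≤ w o := by
    intro o
    simp only [w]
    split_ifs <;> positivity
  have hsum : ∑ o, w o = 2 := by
    rw [Fintype.sum_option]
    simp only [w, ne_eq, not_true_eq_false, if_false, reduceCtorEq, not_false_eq_true, if_true,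
      Finset.sum_const, Finset.card_univ, nsmul_eq_mul]
    rw [← hNdef]
    field_simp
    norm_num
  have htot : ∑ g : Fin d → Option C, ∏ j, w (g j) = 2 ^ d := by
    rw [← Fintype.sum_pow w d, hsum]
  set G := (univ : Finset (Fin d → Option C)).filter
      (fun g => (univ.filter fun j => g j ≠ none).card ≤ k) with hG
  have h1 : (G.card : ℝ) * (1 / N) ^ k ≤ 2 ^ d := by
    calc (G.card : ℝ) * (1 / N) ^ k = ∑ g ∈ G, (1 / N) ^ k := by simp
      _ ≤ ∑ g ∈ G, ∏ j, w (g j) := by
          apply Finset.sum_le_sum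
          intro g hg
          have hg' : (univ.filter fun j => g j ≠ none).card ≤ k := by
            have := (Finset.mem_filter.mp (hG ▸ hg)).2
            exact this
          have : ∏ j, w (g j) = (1 / N) ^ (univ.filter fun j => g j ≠ none).card := by
            simp only [w]
            rw [Finset.prod_ite, Finset.prod_const, Finset.prod_const_one, mul_one]
          rw [this]
          apply pow_le_pow_of_le_one (by positivity) _ hg'
          rw [div_le_one hN]; exact hN1
      _ ≤ ∑ g : Fin d → Option C, ∏ j, w (g j) := by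
          apply Finset.sum_le_sum_of_subset_of_nonneg (Finset.subset_univ _)
          intro g _ _
          exact Finset.prod_nonneg (fun j _ => hw0 _)
      _ = 2 ^ d := htot
  have h2 : (G.card : ℝ) ≤ 2 ^ d * N ^ k := by
    have hp : (0 : ℝ) < N ^ k := by positivity
    have h3 : (G.card : ℝ) * (1 / N) ^ k * N ^ k ≤ 2 ^ d * N ^ k :=
      mul_le_mul_of_nonneg_right h1 hp.le
    have h4 : (G.card : ℝ) * (1 / N) ^ k * N ^ k = G.card := by
      rw [mul_assoc, ← mul_pow, one_div, inv_mul_cancel₀ hN.ne', one_pow, mul_one]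
    linarith
  have : ((G.card : ℕ) : ℝ) ≤ ((2 ^ d * (Fintype.card C) ^ k : ℕ) : ℝ) := by
    push_cast
    exact h2
  exact_mod_cast this

variable {X : Type*}

lemma rhoP_one (ρ : X → X → ℝ) {d : ℕ} (φ ψ : Fin d → X) :
    rhoP ρ 1 φ ψ = (1 / (d : ℝ)) * ∑ j, ρ (φ j) (ψ j) := by
  unfold rhoP
  simp

lemma rhoP_top (ρ : X → X → ℝ) {d : ℕ} (φ ψ : Fin d → X) :
    rhoP ρ ⊤ φ ψ = ⨆ j, ρ (φ j) (ψ j) := by
  unfold rhoP
  simp

lemma sepNum_le_sepNum {M : Type*} {sep sep' : ℝ → ℝ → Prop} {ε ε' : ℝ} {Y Y' : Set M}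
    {θ θ' : M → M → ℝ} (hY : Y ⊆ Y')
    (h : ∀ a b, a ∈ Y → b ∈ Y → sep ε (θ a b) → sep' ε' (θ' a b)) :
    sepNum sep ε Y θ ≤ sepNum sep' ε' Y' θ' := by
  unfold sepNum
  apply iSup_le
  intro S
  apply iSup_le
  rintro ⟨hS, hsep⟩
  refine le_iSup_of_le S (le_iSup_of_le ⟨hS.trans hY, ?_⟩ le_rfl)
  intro a ha b hb hab
  exact h a b (hS ha) (hS hb) (hsep a ha b hb hab)

/-- The comparison of separated sets for `ρ_∞` at scale `ε` and for `ρ_1` at scale `η`. -/
lemma sepNum_top_le (ρ : X → X → ℝ) (h00 : ∀ x, ρ x x = 0) (h0 : ∀ x y, 0 ≤ ρ x y)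
    (hsymm : ∀ x y, ρ x y = ρ y x) (htri : ∀ x y z, ρ x z ≤ ρ x y + ρ y z)
    {C : Type*} [Fintype C] [Nonempty C] (c : X → C) {ε η : ℝ} (hε : 0 < ε) (hη : 0 ≤ η)
    (hc : ∀ x y, c x = c y → ρ x y < ε) {d : ℕ} {k : ℕ} (hk : (d : ℝ) * (2 * η / ε) < k + 1)
    (Y : Set (Fin d → X)) :
    sepNum (· ≤ ·) ε Y (rhoP ρ ⊤) ≤
      sepNum (· < ·) η Y (rhoP ρ 1) * ((2 ^ d * (Fintype.card C) ^ k : ℕ) : ℕ∞) := by
  classical
  conv_lhs => unfold sepNum
  apply iSup_le
  intro T
  apply iSup_le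
  rintro ⟨hT, hTsep⟩
  -- a maximal separated subset
  let P : Finset (Finset (Fin d → X)) := T.powerset.filter
    (fun S => ∀ a ∈ S, ∀ b ∈ S, a ≠ b → η < rhoP ρ 1 a b)
  have hPne : P.Nonempty := ⟨∅, by simp [P]⟩
  obtain ⟨S, hSP, hSmax⟩ := P.exists_max_image (fun S => S.card) hPne
  have hSP' := Finset.mem_filter.mp hSP
  have hST : S ⊆ T := Finset.mem_powerset.mp hSP'.1
  have hSsep := hSP'.2
  have hsymm1 : ∀ a b : Fin d → X, rhoP ρ 1 a b = rhoP ρ 1 b a := by
    intro a b
    rw [rhoP_one, rhoP_one]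
    congr 1
    exact Finset.sum_congr rfl (fun j _ => hsymm _ _)
  have hcover : ∀ ψ ∈ T, ∃ φ ∈ S, rhoP ρ 1 φ ψ ≤ η := by
    intro ψ hψ
    by_contra hcon
    push Not at hcon
    by_cases hψS : ψ ∈ S
    · have := hcon ψ hψS
      rw [rhoP_one] at this
      simp only [h00, Finset.sum_const_zero, mul_zero] at this
      linarith
    · have hins : insert ψ S ∈ P := by
        refine Finset.mem_filter.mpr ⟨Finset.mem_powerset.mpr
          (Finset.insert_subset hψ hST), ?_⟩
        intro a ha b hb hab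
        rcases Finset.mem_insert.mp ha with ha1 | ha1
        · rcases Finset.mem_insert.mp hb with hb1 | hb1
          · exact absurd (ha1.trans hb1.symm) hab
          · rw [ha1, hsymm1]; exact hcon b hb1
        · rcases Finset.mem_insert.mp hb with hb1 | hb1
          · rw [hb1]; exact hcon a ha1
          · exact hSsep a ha1 b hb1 hab
      have := hSmax _ hins
      rw [Finset.card_insert_of_notMem hψS] at this
      omega
  choose! φ hφS hφ using hcover
  let G := (univ : Finset (Fin d → Option C)).filter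
      (fun g => (univ.filter fun j => g j ≠ none).card ≤ k)
  let f : (Fin d → X) → (Fin d → X) × (Fin d → Option C) := fun ψ =>
    (φ ψ, fun j => if ρ (φ ψ j) (ψ j) < ε / 2 then none else some (c (ψ j)))
  have hmaps : ∀ ψ ∈ T, f ψ ∈ S ×ˢ G := by
    intro ψ hψ
    rw [Finset.mem_product]
    refine ⟨hφS ψ hψ, ?_⟩
    refine Finset.mem_filter.mpr ⟨Finset.mem_univ _, ?_⟩
    have hset : (univ.filter fun j => (f ψ).2 j ≠ none) =
        univ.filter fun j => ¬ (ρ (φ ψ j) (ψ j) < ε / 2) := by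
      apply Finset.filter_congr
      intro j _
      simp only [f]
      split_ifs with h <;> simp [h]
    rw [hset]
    set J := univ.filter fun j => ¬ (ρ (φ ψ j) (ψ j) < ε / 2) with hJ
    have h1 : (J.card : ℝ) * (ε / 2) ≤ ∑ j, ρ (φ ψ j) (ψ j) := by
      calc (J.card : ℝ) * (ε / 2) = ∑ j ∈ J, ε / 2 := by simp
        _ ≤ ∑ j ∈ J, ρ (φ ψ j) (ψ j) := by
            apply Finset.sum_le_sum
            intro j hj
            exact not_lt.mp (Finset.mem_filter.mp hj).2
        _ ≤ ∑ j, ρ (φ ψ j) (ψ j) :=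
            Finset.sum_le_sum_of_subset_of_nonneg (Finset.subset_univ _) (fun j _ _ => h0 _ _)
    have h2 : ∑ j, ρ (φ ψ j) (ψ j) ≤ d * η := by
      have h3 := hφ ψ hψ
      rw [rhoP_one] at h3
      rcases Nat.eq_zero_or_pos d with hd | hd
      · subst hd; simp
      · have hd' : (0 : ℝ) < d := by exact_mod_cast hd
        have h4 : (d : ℝ) * (1 / (d : ℝ) * ∑ j, ρ (φ ψ j) (ψ j)) ≤ d * η :=
          mul_le_mul_of_nonneg_left h3 hd'.le
        have h5 : (d : ℝ) * (1 / (d : ℝ) * ∑ j, ρ (φ ψ j) (ψ j)) = ∑ j, ρ (φ ψ j) (ψ j) := by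
          rw [← mul_assoc, mul_one_div_cancel hd'.ne', one_mul]
        linarith
    have h6 : (J.card : ℝ) ≤ d * (2 * η / ε) := by
      have h7 : (J.card : ℝ) * (ε / 2) ≤ d * η := h1.trans h2
      have h8 : (d : ℝ) * (2 * η / ε) = (d * η) / (ε / 2) := by field_simp
      rw [h8, le_div_iff₀ (by positivity)]
      exact h7
    have h9 : (J.card : ℝ) < k + 1 := lt_of_le_of_lt h6 hk
    have h10 : J.card < k + 1 := by exact_mod_cast h9
    omega
  have hinj : Set.InjOn f (T : Set (Fin d → X)) := by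
    intro ψ hψ ψ' hψ' hff
    by_contra hne
    have h1 := hTsep ψ hψ ψ' hψ' hne
    simp only at h1
    rw [rhoP_top] at h1
    have hφeq : φ ψ = φ ψ' := congrArg Prod.fst hff
    have hgeq : ∀ j, (f ψ).2 j = (f ψ').2 j := fun j => by rw [hff]
    have hj : ∀ j, ρ (ψ j) (ψ' j) < ε := by
      intro j
      have hg := hgeq j
      simp only [f] at hg
      rw [← hφeq] at hg
      split_ifs at hg with ha hb hb
      · calc ρ (ψ j) (ψ' j) ≤ ρ (ψ j) (φ ψ j) + ρ (φ ψ j) (ψ' j) := htri _ _ _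
          _ = ρ (φ ψ j) (ψ j) + ρ (φ ψ j) (ψ' j) := by rw [hsymm (ψ j)]
          _ < ε / 2 + ε / 2 := add_lt_add ha hb
          _ = ε := by ring
      · exact hc _ _ (Option.some.inj hg)
    rcases isEmpty_or_nonempty (Fin d) with he | hne'
    · exact hne (Subsingleton.elim _ _)
    · obtain ⟨j, hj'⟩ := exists_eq_ciSup_of_finite (f := fun j => ρ (ψ j) (ψ' j))
      rw [← hj'] at h1
      exact absurd (hj j) (not_lt.mpr h1)
  have hcard : T.card ≤ S.card * G.card := by
    rw [← Finset.card_product]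
    exact Finset.card_le_card_of_injOn f hmaps hinj
  have hS' : (S.card : ℕ∞) ≤ sepNum (· < ·) η Y (rhoP ρ 1) := by
    unfold sepNum
    refine le_iSup_of_le S (le_iSup_of_le ⟨?_, hSsep⟩ le_rfl)
    exact (Finset.coe_subset.mpr hST).trans hT
  calc (T.card : ℕ∞) ≤ ((S.card * G.card : ℕ) : ℕ∞) := by exact_mod_cast hcard
    _ = (S.card : ℕ∞) * (G.card : ℕ∞) := by push_cast; rfl
    _ ≤ sepNum (· < ·) η Y (rhoP ρ 1) * ((2 ^ d * (Fintype.card C) ^ k : ℕ) : ℕ∞) := by
        apply mul_le_mul' hS'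
        exact_mod_cast card_few d C k

end Pool.Agent.helper358_md
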