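import Mathlib

/-!
# Sofic `p`-metric mean dimension: definitions
-/

namespace Pool.Agent.helper358_md

open Filter Topology
open scoped ENNReal

/-- A sofic approximation sequence of a group `Γ`: maps `σ i : Γ → Sym(d i)` with `d i → ∞` that
are asymptotically multiplicative and asymptotically free. -/
structure SoficApprox (Γ : Type*) [Group Γ] where
  /-- the sizes `d_i` -/
  d : ℕ → ℕ
  /-- the maps `σ_i : Γ → Sym(d_i)` -/
  σ : (i : ℕ) → Γ → Equiv.Perm (Fin (d i))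
  d_tendsto : Tendsto d atTop atTop
  mul_tendsto : ∀ s t : Γ, Tendsto
    (fun i => ((Finset.univ.filter
      fun j : Fin (d i) => σ i (s * t) j = σ i s (σ i t j)).card : ℝ) / (d i : ℝ)) atTop (𝓝 1)
  free_tendsto : ∀ s : Γ, s ≠ 1 → Tendsto
    (fun i => ((Finset.univ.filter fun j : Fin (d i) => σ i s j = j).card : ℝ) / (d i : ℝ))
    atTop (𝓝 0)

/-- A continuous pseudometric on a topological space. -/
structure ContPseudo (X : Type*) [TopologicalSpace X] where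
  /-- the distance function -/
  toFun : X → X → ℝ
  self : ∀ x, toFun x x = 0
  symm : ∀ x y, toFun x y = toFun y x
  triangle : ∀ x y z, toFun x z ≤ toFun x y + toFun y z
  cont : Continuous (fun q : X × X => toFun q.1 q.2)

/-- `ρ` is dynamically generating for the action of `Γ`. -/
def Generating (Γ : Type*) {X : Type*} [SMul Γ X] (ρ : X → X → ℝ) : Prop :=
  ∀ x y : X, x ≠ y → ∃ s : Γ, 0 < ρ (s • x) (s • y)

/-- `ρ_p(φ,ψ) = ((1/d) ∑_j ρ(φ j, ψ j)^p)^(1/p)` for finite `p`, and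
`ρ_∞(φ,ψ) = max_j ρ(φ j, ψ j)`. -/
noncomputable def rhoP {X : Type*} (ρ : X → X → ℝ) (p : ℝ≥0∞) {d : ℕ} (φ ψ : Fin d → X) : ℝ :=
  if p = ⊤ then ⨆ j, ρ (φ j) (ψ j)
  else ((1 / (d : ℝ)) * ∑ j, ρ (φ j) (ψ j) ^ p.toReal) ^ (1 / p.toReal)

/-- `Map(ρ,F,δ,σ_i)`. -/
def MapSet {Γ X : Type*} [Group Γ] [MulAction Γ X] (A : SoficApprox Γ) (ρ : X → X → ℝ)
    (F : Finset Γ) (δ : ℝ) (i : ℕ) : Set (Fin (A.d i) → X) :=
  {φ | ∀ s ∈ F, rhoP ρ 2 (fun j => φ (A.σ i s j)) (fun j => s • φ j) ≤ δ}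

/-- The largest cardinality (possibly infinite) of an `ε`-separated subset of `Y` for `θ`, where two
distinct points `a`, `b` count as `ε`-separated when `sep ε (θ a b)`.  The two usual conventions are
`sep = (· ≤ ·)` (distance at least `ε`) and `sep = (· < ·)` (distance larger than `ε`). -/
noncomputable def sepNum {M : Type*} (sep : ℝ → ℝ → Prop) (ε : ℝ) (Y : Set M)
    (θ : M → M → ℝ) : ℕ∞ :=
  ⨆ (S : Finset M) (_ : (S : Set M) ⊆ Y ∧ ∀ a ∈ S, ∀ b ∈ S, a ≠ b → sep ε (θ a b)),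
    (S.card : ℕ∞)

/-- `log N_ε(Map(ρ,F,δ,σ_i),ρ_p) / (d_i log(1/ε))`, with `log 0 = -∞`. -/
noncomputable def quot {Γ X : Type*} [Group Γ] [MulAction Γ X] (sep : ℝ → ℝ → Prop)
    (A : SoficApprox Γ) (p : ℝ≥0∞) (ρ : X → X → ℝ) (ε : ℝ) (F : Finset Γ) (δ : ℝ) (i : ℕ) :
    EReal :=
  ENNReal.log ((sepNum sep ε (MapSet A ρ F δ i) (rhoP ρ p) : ℕ∞) : ℝ≥0∞) /
    (((A.d i : ℝ) * Real.log (1 / ε) : ℝ) : EReal)

/-- `mdim_{Σ,p}(ρ)`. -/
noncomputable def mdimRho {Γ X : Type*} [Group Γ] [MulAction Γ X] (sep : ℝ → ℝ → Prop)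
    (A : SoficApprox Γ) (p : ℝ≥0∞) (ρ : X → X → ℝ) : EReal :=
  liminf (fun ε : ℝ => ⨅ (F : Finset Γ) (δ : ℝ) (_ : 0 < δ),
    limsup (fun i : ℕ => quot sep A p ρ ε F δ i) atTop) (𝓝[>] 0)

/-- `mdim_{Σ,M,p}(X,Γ)`: the infimum of `mdim_{Σ,p}(ρ)` over the dynamically generating continuous
pseudometrics `ρ`. -/
noncomputable def mdimM {Γ : Type*} [Group Γ] (sep : ℝ → ℝ → Prop) (A : SoficApprox Γ)
    (X : Type*) [TopologicalSpace X] [MulAction Γ X] (p : ℝ≥0∞) : EReal :=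
  ⨅ (ρ : ContPseudo X) (_ : Generating Γ ρ.toFun), mdimRho sep A p ρ.toFun

end Pool.Agent.helper358_md
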