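import Pool.Agent.helper358_md.Def

/-!
# A pseudometric with slowly growing covering numbers below a given one
-/

namespace Pool.Agent.helper358_md

open Filter Topology
open scoped ENNReal

variable {X : Type*} [TopologicalSpace X]

lemma ContPseudo.nonneg (ρ : ContPseudo X) (a b : X) : 0 ≤ ρ.toFun a b := by
  have h := ρ.triangle a b a
  rw [ρ.self, ρ.symm b a] at h
  linarith

lemma ContPseudo.abs_sub_le (ρ : ContPseudo X) (a b z : X) :
    |ρ.toFun a z - ρ.toFun b z| ≤ ρ.toFun a b := by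
  rw [abs_sub_le_iff]
  constructor
  · have := ρ.triangle a b z
    linarith
  · have := ρ.triangle b a z
    rw [ρ.symm b a] at this
    linarith

lemma ContPseudo.exists_bound [CompactSpace X] (ρ : ContPseudo X) :
    ∃ D : ℝ, 1 ≤ D ∧ ∀ a b, ρ.toFun a b ≤ D := by
  obtain ⟨C, hC⟩ := (isCompact_univ (X := X × X)).exists_bound_of_continuousOn
    ρ.cont.continuousOn
  refine ⟨max C 1, le_max_right _ _, fun a b => ?_⟩
  have := hC (a, b) (Set.mem_univ _)
  rw [Real.norm_eq_abs] at this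
  exact (le_abs_self _).trans (this.trans (le_max_left _ _))

lemma hasSum_half (D : ℝ) : HasSum (fun n : ℕ => (1 / 2 : ℝ) ^ (n + 1) * D) D := by
  have h := (hasSum_geometric_two' D)
  have h2 : (fun n : ℕ => (1 / 2 : ℝ) ^ (n + 1) * D) = fun n : ℕ => D / 2 / 2 ^ n := by
    funext n
    rw [pow_succ, one_div, inv_pow]
    field_simp
  rw [h2]
  exact h

section

variable (ρ : ContPseudo X) (x : ℕ → X)

/-- `ρ'(a,b) = ∑_n 2^{-n-1} |ρ(a,x_n) - ρ(b,x_n)|`. -/
noncomputable def tame (a b : X) : ℝ :=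
  ∑' n : ℕ, (1 / 2 : ℝ) ^ (n + 1) * |ρ.toFun a (x n) - ρ.toFun b (x n)|

lemma tame_term_nonneg (a b : X) (n : ℕ) :
    0 ≤ (1 / 2 : ℝ) ^ (n + 1) * |ρ.toFun a (x n) - ρ.toFun b (x n)| := by positivity

lemma tame_term_le (a b : X) (n : ℕ) :
    (1 / 2 : ℝ) ^ (n + 1) * |ρ.toFun a (x n) - ρ.toFun b (x n)|
      ≤ (1 / 2 : ℝ) ^ (n + 1) * ρ.toFun a b :=
  mul_le_mul_of_nonneg_left (ρ.abs_sub_le a b _) (by positivity)

lemma tame_summable (a b : X) :
    Summable fun n : ℕ => (1 / 2 : ℝ) ^ (n + 1) * |ρ.toFun a (x n) - ρ.toFun b (x n)| :=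
  Summable.of_nonneg_of_le (tame_term_nonneg ρ x a b) (tame_term_le ρ x a b)
    (hasSum_half (ρ.toFun a b)).summable

lemma tame_le (a b : X) : tame ρ x a b ≤ ρ.toFun a b := by
  unfold tame
  rw [← (hasSum_half (ρ.toFun a b)).tsum_eq]
  exact (tame_summable ρ x a b).tsum_le_tsum (tame_term_le ρ x a b)
    (hasSum_half (ρ.toFun a b)).summable

lemma tame_self (a : X) : tame ρ x a a = 0 := by
  unfold tame
  simp

lemma tame_symm (a b : X) : tame ρ x a b = tame ρ x b a := by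
  unfold tame
  congr 1
  funext n
  rw [abs_sub_comm]

lemma tame_triangle (a b c : X) : tame ρ x a c ≤ tame ρ x a b + tame ρ x b c := by
  unfold tame
  rw [← (tame_summable ρ x a b).tsum_add (tame_summable ρ x b c)]
  apply (tame_summable ρ x a c).tsum_le_tsum _
    ((tame_summable ρ x a b).add (tame_summable ρ x b c))
  intro n
  rw [← mul_add]
  exact mul_le_mul_of_nonneg_left (abs_sub_le _ _ _) (by positivity)

lemma tame_eq_zero (hx : DenseRange x) (a b : X) (h : tame ρ x a b = 0) : ρ.toFun a b = 0 := by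
  have h1 : ∀ n, ρ.toFun a (x n) = ρ.toFun b (x n) := by
    intro n
    have h2 := (tame_summable ρ x a b).le_tsum n (fun m _ => tame_term_nonneg ρ x a b m)
    have h3 : (1 / 2 : ℝ) ^ (n + 1) * |ρ.toFun a (x n) - ρ.toFun b (x n)| ≤ 0 := by
      calc _ ≤ _ := h2
        _ = 0 := h
    have h4 := le_antisymm h3 (tame_term_nonneg ρ x a b n)
    rcases mul_eq_zero.mp h4 with h5 | h5
    · exact absurd h5 (by positivity)
    · exact sub_eq_zero.mp (abs_eq_zero.mp h5)
  have hca : Continuous fun z => ρ.toFun a z :=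
    ρ.cont.comp (continuous_const.prodMk continuous_id)
  have hcb : Continuous fun z => ρ.toFun b z :=
    ρ.cont.comp (continuous_const.prodMk continuous_id)
  have h6 : (fun z => ρ.toFun a z) = fun z => ρ.toFun b z :=
    hx.equalizer hca hcb (funext h1)
  have h7 : ρ.toFun a b = ρ.toFun b b := congrFun h6 b
  rw [h7, ρ.self]

lemma tame_continuous [CompactSpace X] :
    Continuous (fun q : X × X => tame ρ x q.1 q.2) := by
  obtain ⟨D, _, hD⟩ := ρ.exists_bound
  unfold tame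
  apply continuous_tsum (u := fun n : ℕ => (1 / 2 : ℝ) ^ (n + 1) * D)
  · intro n
    apply Continuous.mul continuous_const
    apply Continuous.abs
    apply Continuous.sub
    · exact ρ.cont.comp (continuous_fst.prodMk continuous_const)
    · exact ρ.cont.comp (continuous_snd.prodMk continuous_const)
  · exact (hasSum_half D).summable
  · intro n q
    rw [Real.norm_eq_abs, abs_of_nonneg (tame_term_nonneg ρ x q.1 q.2 n)]
    exact (tame_term_le ρ x q.1 q.2 n).trans
      (mul_le_mul_of_nonneg_left (hD _ _) (by positivity))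

/-- The pseudometric `ρ'`. -/
noncomputable def tameC [CompactSpace X] : ContPseudo X where
  toFun := tame ρ x
  self := tame_self ρ x
  symm := tame_symm ρ x
  triangle := tame_triangle ρ x
  cont := tame_continuous ρ x

lemma tame_code {D : ℝ} (hD : ∀ a b, ρ.toFun a b ≤ D) {δ : ℝ} (hδ : 0 < δ) (m : ℕ) :
    ∃ c : X → (Fin m → Fin (⌊D / δ⌋₊ + 1)), ∀ a b, c a = c b →
      tame ρ x a b ≤ δ + D * (1 / 2) ^ m := by
  refine ⟨fun a n => ⟨⌊ρ.toFun a (x n) / δ⌋₊, ?_⟩, ?_⟩
  · apply Nat.lt_succ_of_le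
    apply Nat.floor_le_floor
    gcongr
    exact hD _ _
  · intro a b hab
    have h1 : ∀ n < m, |ρ.toFun a (x n) - ρ.toFun b (x n)| ≤ δ := by
      intro n hn
      have h2 := congrFun hab ⟨n, hn⟩
      have h3 : ⌊ρ.toFun a (x n) / δ⌋₊ = ⌊ρ.toFun b (x n) / δ⌋₊ := by
        simpa using congrArg Fin.val h2
      have ha0 : 0 ≤ ρ.toFun a (x n) / δ := div_nonneg (ρ.nonneg _ _) hδ.le
      have hb0 : 0 ≤ ρ.toFun b (x n) / δ := div_nonneg (ρ.nonneg _ _) hδ.le
      have ha1 := Nat.floor_le ha0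
      have ha2 := Nat.lt_floor_add_one (ρ.toFun a (x n) / δ)
      have hb1 := Nat.floor_le hb0
      have hb2 := Nat.lt_floor_add_one (ρ.toFun b (x n) / δ)
      rw [h3] at ha1 ha2
      have h4 : ρ.toFun a (x n) / δ - ρ.toFun b (x n) / δ ≤ 1 := by linarith
      have h5 : ρ.toFun b (x n) / δ - ρ.toFun a (x n) / δ ≤ 1 := by linarith
      rw [← sub_div, div_le_one hδ] at h4 h5
      rw [abs_le]
      constructor <;> linarith
    have hD0 : 0 ≤ D := (ρ.nonneg a b).trans (hD a b)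
    unfold tame
    rw [← (tame_summable ρ x a b).sum_add_tsum_nat_add m]
    apply add_le_add
    · calc ∑ i ∈ Finset.range m, (1 / 2 : ℝ) ^ (i + 1) * |ρ.toFun a (x i) - ρ.toFun b (x i)|
          ≤ ∑ i ∈ Finset.range m, (1 / 2 : ℝ) ^ (i + 1) * δ := by
            apply Finset.sum_le_sum
            intro i hi
            exact mul_le_mul_of_nonneg_left (h1 i (Finset.mem_range.mp hi)) (by positivity)
        _ ≤ δ := by
            have := (hasSum_half δ).summable.sum_le_tsum (Finset.range m)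
              (fun i _ => by positivity)
            rwa [(hasSum_half δ).tsum_eq] at this
    · have hs : HasSum (fun i : ℕ => (1 / 2 : ℝ) ^ (i + 1) * (D * (1 / 2) ^ m))
          (D * (1 / 2) ^ m) := hasSum_half _
      rw [← hs.tsum_eq]
      apply Summable.tsum_le_tsum _ _ hs.summable
      · intro i
        calc (1 / 2 : ℝ) ^ (i + m + 1) * |ρ.toFun a (x (i + m)) - ρ.toFun b (x (i + m))|
            ≤ (1 / 2 : ℝ) ^ (i + m + 1) * D := by
              apply mul_le_mul_of_nonneg_left _ (by positivity)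
              exact (ρ.abs_sub_le a b _).trans (hD a b)
          _ = (1 / 2 : ℝ) ^ (i + 1) * (D * (1 / 2) ^ m) := by ring
      · exact (summable_nat_add_iff m).mpr (tame_summable ρ x a b)

end

/-- On a compact space, if `ρ'` vanishes only where `ρ` does, then `ρ` is small when `ρ'` is. -/
lemma exists_modulus [CompactSpace X] (ρ ρ' : ContPseudo X)
    (h : ∀ a b, ρ'.toFun a b = 0 → ρ.toFun a b = 0) {η : ℝ} (hη : 0 < η) :
    ∃ κ : ℝ, 0 < κ ∧ ∀ a b, ρ'.toFun a b < κ → ρ.toFun a b < η := by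
  let K : Set (X × X) := {q | η ≤ ρ.toFun q.1 q.2}
  have hK : IsCompact K := (isClosed_le continuous_const ρ.cont).isCompact
  rcases K.eq_empty_or_nonempty with he | hne
  · refine ⟨1, one_pos, fun a b _ => ?_⟩
    by_contra hcon
    have : (a, b) ∈ K := not_lt.mp hcon
    rw [he] at this
    exact this
  · obtain ⟨q, hq, hmin⟩ := hK.exists_isMinOn hne ρ'.cont.continuousOn
    have hq' : η ≤ ρ.toFun q.1 q.2 := hq
    have hpos : 0 < ρ'.toFun q.1 q.2 := by
      rcases (ρ'.nonneg q.1 q.2).lt_or_eq with h1 | h1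
      · exact h1
      · have := h q.1 q.2 h1.symm
        linarith
    refine ⟨ρ'.toFun q.1 q.2, hpos, fun a b hab => ?_⟩
    by_contra hcon
    have hmem : (a, b) ∈ K := not_lt.mp hcon
    have h3 : ρ'.toFun q.1 q.2 ≤ ρ'.toFun a b := hmin hmem
    linarith

lemma rhoP_two_sq {Y : Type*} (ρ : Y → Y → ℝ) {d : ℕ} (φ ψ : Fin d → Y) {δ : ℝ} (hδ : 0 ≤ δ) :
    rhoP ρ 2 φ ψ ≤ δ ↔ (1 / (d : ℝ)) * ∑ j, ρ (φ j) (ψ j) ^ 2 ≤ δ ^ 2 := by
  have h1 : rhoP ρ 2 φ ψ = Real.sqrt ((1 / (d : ℝ)) * ∑ j, ρ (φ j) (ψ j) ^ 2) := by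
    unfold rhoP
    simp [Real.sqrt_eq_rpow]
  rw [h1]
  rw [Real.sqrt_le_left hδ]

/-- Comparison of the sets `Map` for two pseudometrics. -/
lemma mapSet_subset {Γ : Type*} [Group Γ] [MulAction Γ X] [CompactSpace X] (A : SoficApprox Γ)
    (ρ ρ' : ContPseudo X) (h : ∀ a b, ρ'.toFun a b = 0 → ρ.toFun a b = 0) (F : Finset Γ)
    {δ : ℝ} (hδ : 0 < δ) :
    ∃ δ' : ℝ, 0 < δ' ∧ ∀ i, MapSet A ρ'.toFun F δ' i ⊆ MapSet A ρ.toFun F δ i := by
  obtain ⟨D, hD1, hD⟩ := ρ.exists_bound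
  obtain ⟨κ, hκ, hκ'⟩ := exists_modulus ρ ρ' h (half_pos hδ)
  have hD0 : 0 < D := by linarith
  refine ⟨κ * δ / (2 * D), by positivity, fun i φ hφ s hs => ?_⟩
  have h1 := hφ s hs
  rw [rhoP_two_sq _ _ _ (by positivity)] at h1
  rw [rhoP_two_sq _ _ _ hδ.le]
  have hpt : ∀ a b, ρ.toFun a b ^ 2 ≤ (δ / 2) ^ 2 + (D / κ) ^ 2 * ρ'.toFun a b ^ 2 := by
    intro a b
    by_cases hab : ρ'.toFun a b < κ
    · have h2 := hκ' a b hab
      have h3 := ρ.nonneg a b
      have h4 : ρ.toFun a b ^ 2 ≤ (δ / 2) ^ 2 := by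
        apply pow_le_pow_left₀ h3 h2.le
      have h5 : 0 ≤ (D / κ) ^ 2 * ρ'.toFun a b ^ 2 := by positivity
      linarith
    · have h2 : κ ≤ ρ'.toFun a b := not_lt.mp hab
      have h3 := ρ.nonneg a b
      have h4 : ρ.toFun a b ≤ (D / κ) * ρ'.toFun a b := by
        calc ρ.toFun a b ≤ D := hD a b
          _ = (D / κ) * κ := by field_simp
          _ ≤ (D / κ) * ρ'.toFun a b := mul_le_mul_of_nonneg_left h2 (by positivity)
      have h5 : ρ.toFun a b ^ 2 ≤ ((D / κ) * ρ'.toFun a b) ^ 2 := pow_le_pow_left₀ h3 h4 2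
      rw [mul_pow] at h5
      have h6 : 0 ≤ (δ / 2) ^ 2 := by positivity
      linarith
  rcases Nat.eq_zero_or_pos (A.d i) with hd | hd
  · have : (A.d i : ℝ) = 0 := by exact_mod_cast hd
    rw [this]
    simp
    positivity
  · have hd' : (0 : ℝ) < A.d i := by exact_mod_cast hd
    calc (1 / (A.d i : ℝ)) * ∑ j, ρ.toFun (φ (A.σ i s j)) (s • φ j) ^ 2
        ≤ (1 / (A.d i : ℝ)) * ∑ j, ((δ / 2) ^ 2 +
            (D / κ) ^ 2 * ρ'.toFun (φ (A.σ i s j)) (s • φ j) ^ 2) := by
          apply mul_le_mul_of_nonneg_left _ (by positivity)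
          exact Finset.sum_le_sum (fun j _ => hpt _ _)
      _ = (δ / 2) ^ 2 + (D / κ) ^ 2 * ((1 / (A.d i : ℝ)) *
            ∑ j, ρ'.toFun (φ (A.σ i s j)) (s • φ j) ^ 2) := by
          rw [Finset.sum_add_distrib, ← Finset.mul_sum, Finset.sum_const, Finset.card_univ,
            Fintype.card_fin, nsmul_eq_mul]
          field_simp
      _ ≤ (δ / 2) ^ 2 + (D / κ) ^ 2 * (κ * δ / (2 * D)) ^ 2 := by
          gcongr
      _ = δ ^ 2 / 2 := by
          field_simp
          ring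
      _ ≤ δ ^ 2 := by
          have := sq_nonneg δ
          linarith

end Pool.Agent.helper358_md
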