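import Pool.Agent.helper358_md.Count
import Pool.Agent.helper358_md.Tame

/-!
# The limit argument
-/

namespace Pool.Agent.helper358_md

open Filter Topology
open scoped ENNReal

/-! ### comparison of `ρ_1`, `ρ_p` and `ρ_∞` -/

section powermean

variable {X : Type*} (ρ : X → X → ℝ) (h0 : ∀ a b, 0 ≤ ρ a b)
include h0

lemma rhoP_top_of_isEmpty {d : ℕ} (hd : d = 0) (p : ℝ≥0∞) (hp : p ≠ 0) (φ ψ : Fin d → X) :
    rhoP ρ p φ ψ = 0 := by
  subst hd
  unfold rhoP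
  split_ifs with h
  · simp
  · have : 0 < p.toReal := ENNReal.toReal_pos hp h
    simp only [Nat.cast_zero, Finset.univ_eq_empty, Finset.sum_empty, mul_zero]
    exact Real.zero_rpow (by positivity)

lemma rhoP_one_le {d : ℕ} (p : ℝ≥0∞) (hp : 1 ≤ p) (φ ψ : Fin d → X) :
    rhoP ρ 1 φ ψ ≤ rhoP ρ p φ ψ := by
  rcases Nat.eq_zero_or_pos d with hd | hd
  · rw [rhoP_top_of_isEmpty ρ h0 hd 1 one_ne_zero,
      rhoP_top_of_isEmpty ρ h0 hd p (by intro h; rw [h] at hp; simp at hp)]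
  have hd' : (0 : ℝ) < d := by exact_mod_cast hd
  have hsum1 : ∑ _j : Fin d, (1 / (d : ℝ)) = 1 := by
    rw [Finset.sum_const, Finset.card_univ, Fintype.card_fin, nsmul_eq_mul]
    field_simp
  rw [rhoP_one]
  unfold rhoP
  split_ifs with h
  · haveI : Nonempty (Fin d) := ⟨⟨0, hd⟩⟩
    have hle : ∀ j, ρ (φ j) (ψ j) ≤ ⨆ j, ρ (φ j) (ψ j) := fun j =>
      le_ciSup (Set.finite_range fun j => ρ (φ j) (ψ j)).bddAbove j
    calc 1 / (d : ℝ) * ∑ j, ρ (φ j) (ψ j)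
        ≤ 1 / (d : ℝ) * ∑ j : Fin d, (⨆ j, ρ (φ j) (ψ j)) := by
          apply mul_le_mul_of_nonneg_left _ (by positivity)
          exact Finset.sum_le_sum (fun j _ => hle j)
      _ = ⨆ j, ρ (φ j) (ψ j) := by
          rw [Finset.sum_const, Finset.card_univ, Fintype.card_fin, nsmul_eq_mul]
          field_simp
  · have hp' : 1 ≤ p.toReal := by
      rw [← ENNReal.toReal_one]
      exact (ENNReal.toReal_le_toReal ENNReal.one_ne_top h).mpr hp
    have := Real.arith_mean_le_rpow_mean Finset.univ (fun _ : Fin d => 1 / (d : ℝ))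
      (fun j => ρ (φ j) (ψ j)) (fun _ _ => by positivity) hsum1 (fun j _ => h0 _ _) hp'
    rw [← Finset.mul_sum, ← Finset.mul_sum] at this
    exact this

lemma rhoP_le_top {d : ℕ} (p : ℝ≥0∞) (hp : 1 ≤ p) (φ ψ : Fin d → X) :
    rhoP ρ p φ ψ ≤ rhoP ρ ⊤ φ ψ := by
  rcases Nat.eq_zero_or_pos d with hd | hd
  · rw [rhoP_top_of_isEmpty ρ h0 hd ⊤ (by simp),
      rhoP_top_of_isEmpty ρ h0 hd p (by intro h; rw [h] at hp; simp at hp)]
  have hd' : (0 : ℝ) < d := by exact_mod_cast hd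
  rw [rhoP_top]
  unfold rhoP
  haveI : Nonempty (Fin d) := ⟨⟨0, hd⟩⟩
  have hle : ∀ j, ρ (φ j) (ψ j) ≤ ⨆ j, ρ (φ j) (ψ j) := fun j =>
    le_ciSup (Set.finite_range fun j => ρ (φ j) (ψ j)).bddAbove j
  set M := ⨆ j, ρ (φ j) (ψ j) with hM
  have hM0 : 0 ≤ M := (h0 _ _).trans (hle ⟨0, hd⟩)
  split_ifs with h
  · exact le_rfl
  · have hp' : 1 ≤ p.toReal := by
      rw [← ENNReal.toReal_one]
      exact (ENNReal.toReal_le_toReal ENNReal.one_ne_top h).mpr hp
    have hq : 0 < p.toReal := by linarith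
    have h1 : 1 / (d : ℝ) * ∑ j, ρ (φ j) (ψ j) ^ p.toReal ≤ M ^ p.toReal := by
      calc 1 / (d : ℝ) * ∑ j, ρ (φ j) (ψ j) ^ p.toReal
          ≤ 1 / (d : ℝ) * ∑ j : Fin d, M ^ p.toReal := by
            apply mul_le_mul_of_nonneg_left _ (by positivity)
            exact Finset.sum_le_sum (fun j _ => Real.rpow_le_rpow (h0 _ _) (hle j) hq.le)
        _ = M ^ p.toReal := by
            rw [Finset.sum_const, Finset.card_univ, Fintype.card_fin, nsmul_eq_mul]
            field_simp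
    calc (1 / (d : ℝ) * ∑ j, ρ (φ j) (ψ j) ^ p.toReal) ^ (1 / p.toReal)
        ≤ (M ^ p.toReal) ^ (1 / p.toReal) := by
          apply Real.rpow_le_rpow _ h1 (by positivity)
          apply mul_nonneg (by positivity)
          exact Finset.sum_nonneg (fun j _ => Real.rpow_nonneg (h0 _ _) _)
      _ = M := by
          rw [← Real.rpow_mul hM0, mul_one_div_cancel hq.ne', Real.rpow_one]

end powermean

/-! ### monotonicity of the mean dimensions -/

section mono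

variable {Γ X : Type*} [Group Γ] [MulAction Γ X]

lemma quot_mono (sep : ℝ → ℝ → Prop) (A : SoficApprox Γ) {p q : ℝ≥0∞} (ρ : X → X → ℝ)
    {ε : ℝ} (hε : 0 < ε) (hε1 : ε ≤ 1) (F : Finset Γ) (δ : ℝ) (i : ℕ)
    (h : ∀ φ ψ : Fin (A.d i) → X, sep ε (rhoP ρ p φ ψ) → sep ε (rhoP ρ q φ ψ)) :
    quot sep A p ρ ε F δ i ≤ quot sep A q ρ ε F δ i := by
  unfold quot
  apply EReal.div_le_div_right_of_nonneg
  · have : 0 ≤ (A.d i : ℝ) * Real.log (1 / ε) := by
      apply mul_nonneg (Nat.cast_nonneg _)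
      apply Real.log_nonneg
      rw [le_div_iff₀ hε]; linarith
    exact_mod_cast this
  · apply ENNReal.log_monotone
    apply ENat.toENNReal_le.mpr
    exact sepNum_le_sepNum le_rfl (fun a b _ _ hab => h a b hab)

lemma mdimRho_mono (sep : ℝ → ℝ → Prop) (A : SoficApprox Γ) {p q : ℝ≥0∞} (ρ : X → X → ℝ)
    (h : ∀ (ε : ℝ) (d : ℕ) (φ ψ : Fin d → X), sep ε (rhoP ρ p φ ψ) → sep ε (rhoP ρ q φ ψ)) :
    mdimRho sep A p ρ ≤ mdimRho sep A q ρ := by
  unfold mdimRho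
  refine liminf_le_liminf ?_
  have h1 : ∀ᶠ ε : ℝ in 𝓝[>] 0, ε ≤ 1 := by
    have : ∀ᶠ ε : ℝ in 𝓝 0, ε < 1 := eventually_lt_nhds one_pos
    exact (this.filter_mono nhdsWithin_le_nhds).mono fun _ h => h.le
  filter_upwards [self_mem_nhdsWithin, h1] with ε hε hε1
  refine iInf_mono fun F => iInf_mono fun δ => iInf_mono fun _ => ?_
  exact limsup_le_limsup
    (Eventually.of_forall fun i => quot_mono sep A ρ hε hε1 F δ i (fun φ ψ => h ε _ φ ψ))

end mono

/-! ### the quantitative step -/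

lemma eventually_small {D : ℝ} (hD : 1 ≤ D) {κ : ℝ} (hκ : 0 < κ) :
    ∀ᶠ ε : ℝ in 𝓝[>] 0, 0 < ε ∧ ε < 1 ∧
      (2 * ε ^ κ * (3 * (Real.log (5 * D / ε)) ^ 2) + Real.log 2) / Real.log (1 / ε) ≤ κ := by
  have hL : Tendsto (fun ε : ℝ => Real.log (1 / ε)) (𝓝[>] 0) atTop := by
    have h1 : Tendsto (fun ε : ℝ => 1 / ε) (𝓝[>] 0) atTop := by
      simp only [one_div]
      exact tendsto_inv_nhdsGT_zero
    exact Real.tendsto_log_atTop.comp h1
  set K := Real.log (5 * D) with hK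
  have hK0 : 0 ≤ K := Real.log_nonneg (by linarith)
  -- the function of `L`
  have h2 : Tendsto (fun L : ℝ => 6 * (K + 1) ^ 2 * (1 / κ) * ((κ * L) ^ 1 *
      Real.exp (-(κ * L))) + Real.log 2 / L) atTop (𝓝 (6 * (K + 1) ^ 2 * (1 / κ) * 0 + 0)) := by
    apply Tendsto.add
    · apply Tendsto.const_mul
      exact (Real.tendsto_pow_mul_exp_neg_atTop_nhds_zero 1).comp
        (tendsto_id.const_mul_atTop hκ)
    · exact tendsto_const_nhds.div_atTop tendsto_id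
  rw [mul_zero, add_zero] at h2
  have h3 := (h2.comp hL).eventually (eventually_le_nhds hκ)
  have h4 : ∀ᶠ ε : ℝ in 𝓝[>] 0, ε < 1 := by
    have : ∀ᶠ ε : ℝ in 𝓝 0, ε < 1 := eventually_lt_nhds one_pos
    exact this.filter_mono nhdsWithin_le_nhds
  filter_upwards [h3, h4, self_mem_nhdsWithin, hL.eventually_ge_atTop 1] with ε h5 h6 h7 h8
  have hε : 0 < ε := h7
  refine ⟨hε, h6, ?_⟩
  simp only [Function.comp] at h5
  refine le_trans ?_ h5
  set L := Real.log (1 / ε) with hLdef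
  have hL0 : 0 < L := by linarith
  have h9 : Real.log (5 * D / ε) = K + L := by
    rw [hK, hLdef, div_eq_mul_one_div, Real.log_mul (by positivity) (by positivity)]
  have h10 : ε ^ κ = Real.exp (-(κ * L)) := by
    rw [Real.rpow_def_of_pos hε, hLdef, one_div, Real.log_inv]
    ring_nf
  rw [h9, h10, add_div]
  apply add_le_add _ le_rfl
  rw [div_le_iff₀ hL0]
  have h11 : (K + L) ^ 2 ≤ (K + 1) ^ 2 * L ^ 2 := by
    rw [← mul_pow]
    apply pow_le_pow_left₀ (by positivity)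
    nlinarith
  have h12 : 0 < Real.exp (-(κ * L)) := Real.exp_pos _
  calc 2 * Real.exp (-(κ * L)) * (3 * (K + L) ^ 2)
      = 6 * Real.exp (-(κ * L)) * (K + L) ^ 2 := by ring
    _ ≤ 6 * Real.exp (-(κ * L)) * ((K + 1) ^ 2 * L ^ 2) :=
        mul_le_mul_of_nonneg_left h11 (by positivity)
    _ = 6 * (K + 1) ^ 2 * (1 / κ) * ((κ * L) ^ 1 * Real.exp (-(κ * L))) * L := by
        field_simp

/-- The number of codes needed at scale `ε`. -/
lemma exists_code {X : Type*} [TopologicalSpace X] [CompactSpace X] (ρ : ContPseudo X)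
    (x : ℕ → X) {D : ℝ} (hD1 : 1 ≤ D) (hD : ∀ a b, ρ.toFun a b ≤ D) {ε : ℝ} (hε : 0 < ε)
    (hε1 : ε < 1) :
    ∃ (m N : ℕ) (c : X → (Fin m → Fin (N + 1))), (∀ a b, c a = c b → tame ρ x a b < ε) ∧
      Real.log (Fintype.card (Fin m → Fin (N + 1))) ≤ 3 * (Real.log (5 * D / ε)) ^ 2 := by
  set ℓ := Real.log (5 * D / ε) with hℓ
  have h5 : Real.exp 1 ≤ 5 * D / ε := by
    rw [le_div_iff₀ hε]
    have := Real.exp_one_lt_d9
    nlinarith [Real.exp_pos 1]
  have hℓ1 : 1 ≤ ℓ := by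
    rw [hℓ, Real.le_log_iff_exp_le (by positivity)]
    exact h5
  have h4pos : 0 < 4 * D / ε := by positivity
  have h4 : 0 ≤ Real.log (4 * D / ε) := by
    apply Real.log_nonneg
    rw [le_div_iff₀ hε]; linarith
  have h45 : Real.log (4 * D / ε) ≤ ℓ := by
    apply Real.log_le_log h4pos
    gcongr
    norm_num
  set m := ⌈2 * Real.log (4 * D / ε)⌉₊ with hm
  have hm1 : 2 * Real.log (4 * D / ε) ≤ m := Nat.le_ceil _
  have hm2 : (m : ℝ) < 2 * Real.log (4 * D / ε) + 1 := Nat.ceil_lt_add_one (by positivity)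
  have hpow : 4 * D / ε ≤ 2 ^ m := by
    have h6 : (2 : ℝ) ^ m = Real.exp (m * Real.log 2) := by
      rw [mul_comm, Real.exp_mul, Real.exp_log (by norm_num), Real.rpow_natCast]
    rw [h6, ← Real.log_le_iff_le_exp h4pos]
    have h7 : (1 : ℝ) / 2 ≤ Real.log 2 := by
      have := Real.log_two_gt_d9
      linarith
    have h8 : (0 : ℝ) ≤ m := Nat.cast_nonneg _
    nlinarith
  obtain ⟨c, hc⟩ := tame_code ρ x hD (δ := ε / 4) (by positivity) m
  refine ⟨m, ⌊D / (ε / 4)⌋₊, c, ?_, ?_⟩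
  · intro a b hab
    have h1 := hc a b hab
    have h2 : D * (1 / 2) ^ m ≤ ε / 4 := by
      rw [one_div, inv_pow, ← div_eq_mul_inv, div_le_iff₀ (by positivity)]
      rw [div_le_iff₀ hε] at hpow
      linarith
    linarith
  · rw [Fintype.card_fun, Fintype.card_fin, Fintype.card_fin]
    push_cast
    rw [Real.log_pow]
    have h9 : (⌊D / (ε / 4)⌋₊ : ℝ) + 1 ≤ 5 * D / ε := by
      have h10 : (⌊D / (ε / 4)⌋₊ : ℝ) ≤ D / (ε / 4) := Nat.floor_le (by positivity)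
      have h11 : D / (ε / 4) = 4 * D / ε := by field_simp
      have h10' := h10.trans_eq h11
      have h12 : 1 ≤ D / ε := by rw [le_div_iff₀ hε]; linarith
      have h13 : 5 * D / ε = 4 * D / ε + D / ε := by ring
      rw [h13]
      linarith
    have h14 : Real.log ((⌊D / (ε / 4)⌋₊ : ℝ) + 1) ≤ ℓ := Real.log_le_log (by positivity) h9
    have h15 : 0 ≤ Real.log ((⌊D / (ε / 4)⌋₊ : ℝ) + 1) := by
      apply Real.log_nonneg
      have : (0 : ℝ) ≤ (⌊D / (ε / 4)⌋₊ : ℝ) := Nat.cast_nonneg _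
      linarith
    calc (m : ℝ) * Real.log ((⌊D / (ε / 4)⌋₊ : ℝ) + 1) ≤ (2 * ℓ + 1) * ℓ := by
          apply mul_le_mul (by linarith) h14 h15 (by linarith)
      _ ≤ 3 * ℓ ^ 2 := by nlinarith

variable {Γ X : Type*} [Group Γ] [MulAction Γ X] [TopologicalSpace X] [CompactSpace X]

lemma step (sep : ℝ → ℝ → Prop) (hs1 : ∀ a b, a < b → sep a b) (hs2 : ∀ a b, sep a b → a ≤ b)
    (A : SoficApprox Γ) (ρ : ContPseudo X) (x : ℕ → X) {D : ℝ} (hD1 : 1 ≤ D)
    (hD : ∀ a b, ρ.toFun a b ≤ D) {ε κ b : ℝ} (hε : 0 < ε) (hε1 : ε < 1) (hκ : 0 < κ)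
    (hsmall : (2 * ε ^ κ * (3 * (Real.log (5 * D / ε)) ^ 2) + Real.log 2) /
      Real.log (1 / ε) ≤ κ) (F : Finset Γ) {δ δ' : ℝ}
    (hmap : ∀ i, MapSet A (tameC ρ x).toFun F δ' i ⊆ MapSet A ρ.toFun F δ i)
    (hlim : limsup (fun i : ℕ => quot sep A 1 ρ.toFun (ε ^ (1 + κ)) F δ i) atTop < (b : EReal)) :
    limsup (fun i : ℕ => quot sep A ⊤ (tameC ρ x).toFun ε F δ' i) atTop
      ≤ (((1 + κ) * b + κ : ℝ) : EReal) := by
  refine limsup_le_of_le (by isBoundedDefault) ?_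
  have h1 := eventually_lt_of_limsup_lt hlim
  have h2 := A.d_tendsto.eventually_gt_atTop 0
  obtain ⟨m, N, c, hc, hcard⟩ := exists_code ρ x hD1 hD hε hε1
  set η := ε ^ (1 + κ) with hη
  have hη0 : 0 < η := by positivity
  set L := Real.log (1 / ε) with hL
  have hL0 : 0 < L := Real.log_pos (by rw [lt_div_iff₀ hε]; linarith)
  have hLη : Real.log (1 / η) = (1 + κ) * L := by
    rw [hη, hL, one_div, one_div, Real.log_inv, Real.log_inv, Real.log_rpow hε]
    ring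
  have hηε : 2 * η / ε = 2 * ε ^ κ := by
    rw [hη, Real.rpow_add hε, Real.rpow_one]
    field_simp
  filter_upwards [h1, h2] with i hi hdi
  have hd : (0 : ℝ) < (A.d i : ℝ) := by exact_mod_cast hdi
  set k := ⌊(A.d i : ℝ) * (2 * η / ε)⌋₊ with hk
  have hk1 : (A.d i : ℝ) * (2 * η / ε) < k + 1 := Nat.lt_floor_add_one _
  have hk2 : (k : ℝ) ≤ (A.d i : ℝ) * (2 * η / ε) := Nat.floor_le (by positivity)
  have hρ' : ∀ a b, 0 ≤ (tameC ρ x).toFun a b := (tameC ρ x).nonneg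
  have hcount := sepNum_top_le (tameC ρ x).toFun (tameC ρ x).self hρ' (tameC ρ x).symm
    (tameC ρ x).triangle c hε hη0.le hc hk1 (MapSet A (tameC ρ x).toFun F δ' i)
  have hA : sepNum sep ε (MapSet A (tameC ρ x).toFun F δ' i) (rhoP (tameC ρ x).toFun ⊤) ≤
      sepNum (· ≤ ·) ε (MapSet A (tameC ρ x).toFun F δ' i) (rhoP (tameC ρ x).toFun ⊤) :=
    sepNum_le_sepNum le_rfl (fun a b _ _ h => hs2 _ _ h)
  have hB : sepNum (· < ·) η (MapSet A (tameC ρ x).toFun F δ' i) (rhoP (tameC ρ x).toFun 1) ≤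
      sepNum sep η (MapSet A ρ.toFun F δ i) (rhoP ρ.toFun 1) := by
    apply sepNum_le_sepNum (hmap i)
    intro a b' _ _ h
    apply hs1
    refine lt_of_lt_of_le h ?_
    rw [rhoP_one, rhoP_one]
    apply mul_le_mul_of_nonneg_left _ (by positivity)
    exact Finset.sum_le_sum (fun j _ => tame_le ρ x _ _)
  set N1 := sepNum sep η (MapSet A ρ.toFun F δ i) (rhoP ρ.toFun 1) with hN1
  set M : ℕ := 2 ^ A.d i * (Fintype.card (Fin m → Fin (N + 1))) ^ k with hM
  have hle : sepNum sep ε (MapSet A (tameC ρ x).toFun F δ' i) (rhoP (tameC ρ x).toFun ⊤) ≤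
      N1 * (M : ℕ∞) := hA.trans (hcount.trans (mul_le_mul_left hB _))
  have hcardpos : (0 : ℝ) < (Fintype.card (Fin m → Fin (N + 1)) : ℝ) := by
    exact_mod_cast Fintype.card_pos
  have hMpos : (0 : ℝ) < (M : ℝ) := by
    rw [hM]; push_cast; positivity
  have hlogM : Real.log (M : ℝ) = (A.d i : ℝ) * Real.log 2 +
      k * Real.log (Fintype.card (Fin m → Fin (N + 1)) : ℝ) := by
    rw [hM, Nat.cast_mul, Nat.cast_pow, Nat.cast_pow, Real.log_mul (by positivity)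
      (by positivity), Real.log_pow, Real.log_pow]
    norm_num
  have hlogMe : ENNReal.log (M : ℝ≥0∞) = ((Real.log (M : ℝ) : ℝ) : EReal) := by
    rw [← ENNReal.log_ofReal_of_pos hMpos, ENNReal.ofReal_natCast]
  unfold quot at hi ⊢
  rw [hLη] at hi
  have hden : (0 : EReal) < (((A.d i : ℝ) * ((1 + κ) * L) : ℝ) : EReal) := by
    have : 0 < (A.d i : ℝ) * ((1 + κ) * L) := by positivity
    exact_mod_cast this
  have hden2 : (0 : EReal) < (((A.d i : ℝ) * L : ℝ) : EReal) := by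
    have : 0 < (A.d i : ℝ) * L := by positivity
    exact_mod_cast this
  rw [EReal.div_lt_iff hden (EReal.coe_ne_top _)] at hi
  rw [EReal.div_le_iff_le_mul hden2 (EReal.coe_ne_top _)]
  have hlogcard0 : 0 ≤ Real.log (Fintype.card (Fin m → Fin (N + 1)) : ℝ) := by
    apply Real.log_nonneg
    exact_mod_cast Fintype.card_pos
  have hreal : b * ((A.d i : ℝ) * ((1 + κ) * L)) + Real.log (M : ℝ) ≤
      (A.d i : ℝ) * L * ((1 + κ) * b + κ) := by
    have h3 : (2 * ε ^ κ * (3 * (Real.log (5 * D / ε)) ^ 2) + Real.log 2) ≤ κ * L := by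
      rw [div_le_iff₀ hL0] at hsmall
      exact hsmall
    have h4 : (k : ℝ) * Real.log (Fintype.card (Fin m → Fin (N + 1)) : ℝ) ≤
        (A.d i : ℝ) * (2 * ε ^ κ) * (3 * (Real.log (5 * D / ε)) ^ 2) := by
      rw [← hηε]
      exact mul_le_mul hk2 hcard hlogcard0 (by positivity)
    rw [hlogM]
    have h5 : (A.d i : ℝ) * (2 * ε ^ κ * (3 * (Real.log (5 * D / ε)) ^ 2) + Real.log 2) ≤
        (A.d i : ℝ) * (κ * L) := mul_le_mul_of_nonneg_left h3 hd.le
    nlinarith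
  calc ENNReal.log ((sepNum sep ε (MapSet A (tameC ρ x).toFun F δ' i)
        (rhoP (tameC ρ x).toFun ⊤) : ℕ∞) : ℝ≥0∞)
      ≤ ENNReal.log ((N1 * (M : ℕ∞) : ℕ∞) : ℝ≥0∞) :=
        ENNReal.log_monotone (ENat.toENNReal_le.mpr hle)
    _ = ENNReal.log (N1 : ℝ≥0∞) + ENNReal.log (M : ℝ≥0∞) := by
        rw [ENat.toENNReal_mul, ENNReal.log_mul_add]
        rfl
    _ ≤ ((b * ((A.d i : ℝ) * ((1 + κ) * L)) : ℝ) : EReal) + ((Real.log (M : ℝ) : ℝ) : EReal) := by
        rw [hlogMe]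
        apply add_le_add _ le_rfl
        rw [EReal.coe_mul]
        exact hi.le
    _ ≤ (((A.d i : ℝ) * L : ℝ) : EReal) * (((1 + κ) * b + κ : ℝ) : EReal) := by
        rw [← EReal.coe_add, ← EReal.coe_mul]
        exact_mod_cast hreal

theorem mdimRho_top_le (sep : ℝ → ℝ → Prop) (hs1 : ∀ a b, a < b → sep a b)
    (hs2 : ∀ a b, sep a b → a ≤ b) (A : SoficApprox Γ) (ρ : ContPseudo X) (x : ℕ → X)
    (hx : DenseRange x) :
    mdimRho sep A ⊤ (tameC ρ x).toFun ≤ mdimRho sep A 1 ρ.toFun := by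
  rw [← EReal.le_of_forall_lt_iff_le]
  intro b hb
  obtain ⟨D, hD1, hD⟩ := ρ.exists_bound
  have hfreq := frequently_lt_of_liminf_lt (by isBoundedDefault) hb
  have key : ∀ κ : ℝ, 0 < κ →
      mdimRho sep A ⊤ (tameC ρ x).toFun ≤ (((1 + κ) * b + κ : ℝ) : EReal) := by
    intro κ hκ
    have hκ1 : 0 < 1 + κ := by linarith
    have hκ2 : 0 < 1 / (1 + κ) := by positivity
    have ht : Tendsto (fun η : ℝ => η ^ (1 / (1 + κ))) (𝓝[>] 0) (𝓝[>] 0) := by
      apply tendsto_nhdsWithin_of_tendsto_nhds_of_eventually_within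
      · have h1 : Tendsto (fun η : ℝ => η ^ (1 / (1 + κ))) (𝓝 0) (𝓝 (0 ^ (1 / (1 + κ)))) :=
          (Real.continuousAt_rpow_const 0 (1 / (1 + κ)) (Or.inr hκ2.le)).tendsto
        rw [Real.zero_rpow hκ2.ne'] at h1
        exact h1.mono_left nhdsWithin_le_nhds
      · filter_upwards [self_mem_nhdsWithin] with η hη
        exact Real.rpow_pos_of_pos hη _
    have hfreq2 : ∃ᶠ η : ℝ in 𝓝[>] 0,
        (⨅ (F : Finset Γ) (δ : ℝ) (_ : 0 < δ), limsup (fun i : ℕ =>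
          quot sep A 1 ρ.toFun ((η ^ (1 / (1 + κ))) ^ (1 + κ)) F δ i) atTop) < (b : EReal) := by
      have h1 : ∀ᶠ η : ℝ in 𝓝[>] 0, (η ^ (1 / (1 + κ))) ^ (1 + κ) = η := by
        filter_upwards [self_mem_nhdsWithin] with η hη
        have hη' : (0 : ℝ) < η := hη
        rw [← Real.rpow_mul hη'.le, one_div, inv_mul_cancel₀ hκ1.ne', Real.rpow_one]
      refine (hfreq.and_eventually h1).mono ?_
      rintro η ⟨h2, h3⟩
      rw [h3]
      exact h2
    have hfreq3 : ∃ᶠ ε : ℝ in 𝓝[>] 0,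
        (⨅ (F : Finset Γ) (δ : ℝ) (_ : 0 < δ), limsup (fun i : ℕ =>
          quot sep A 1 ρ.toFun (ε ^ (1 + κ)) F δ i) atTop) < (b : EReal) :=
      ht.frequently (p := fun ε : ℝ => (⨅ (F : Finset Γ) (δ : ℝ) (_ : 0 < δ),
        limsup (fun i : ℕ => quot sep A 1 ρ.toFun (ε ^ (1 + κ)) F δ i) atTop) < (b : EReal))
        hfreq2
    unfold mdimRho
    apply liminf_le_of_frequently_le'
    refine (hfreq3.and_eventually (eventually_small hD1 hκ)).mono ?_
    rintro ε ⟨h1, hε, hε1, hsmall⟩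
    simp only [iInf_lt_iff] at h1
    obtain ⟨F, δ, hδ, hlim⟩ := h1
    obtain ⟨δ', hδ', hmap⟩ := mapSet_subset A ρ (tameC ρ x)
      (fun a b h => tame_eq_zero ρ x hx a b h) F hδ
    refine (iInf_le_of_le F (iInf_le_of_le δ' (iInf_le_of_le hδ' ?_)))
    exact step sep hs1 hs2 A ρ x hD1 hD hε hε1 hκ hsmall F hmap hlim
  have hlim : Tendsto (fun κ : ℝ => (((1 + κ) * b + κ : ℝ) : EReal)) (𝓝[>] 0)
      (𝓝 (b : EReal)) := by
    have h1 : Tendsto (fun κ : ℝ => (1 + κ) * b + κ) (𝓝[>] 0) (𝓝 b) := by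
      have h2 : Continuous fun κ : ℝ => (1 + κ) * b + κ := by fun_prop
      have h3 := h2.tendsto 0
      simp only [add_zero, one_mul] at h3
      exact h3.mono_left nhdsWithin_le_nhds
    exact (continuous_coe_real_ereal.tendsto b).comp h1
  apply ge_of_tendsto hlim
  filter_upwards [self_mem_nhdsWithin] with κ hκ
  exact key κ hκ

end Pool.Agent.helper358_md
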